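import Pool.Agent.H655.EF.Univ

/-!
MP_3b9597_lc, Q1: homeomorphism of surfaces is Borel reducible to homeomorphism of 3-manifolds, where
manifolds are coded as closed subsets of a universal Polish space.
-/

set_option autoImplicit false

open Set Filter Topology

namespace Pool.Agent.Results.MP_3b9597_lc.DimReduction

open Pool.Agent.H655.EF

/-- The set of (codes of) `n`-manifolds: the closed subsets of `U` which, with the subspace topology,
are topological `n`-manifolds without boundary, that is, locally homeomorphic to open subsets of
`ℝⁿ`. (Subspaces of Polish spaces are Hausdorff and second countable.) -/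
def Mfd (U : Type) [TopologicalSpace U] (n : ℕ) : Set (FU U) :=
  {F | Nonempty (ChartedSpace (EuclideanSpace ℝ (Fin n)) F.toSet)}

/-- The closed sets are homeomorphic. -/
def Homeomorphic {U : Type} [TopologicalSpace U] (F F' : FU U) : Prop :=
  Nonempty (F.toSet ≃ₜ F'.toSet)

/-- Borel reducibility of the relation `R` on `A` to the relation `S` on `B`, by a map which is the
restriction of a Borel map between the ambient spaces. -/
def BorelReducibleOn {X Y : Type} [MeasurableSpace X] [MeasurableSpace Y] (A : Set X)
    (R : X → X → Prop) (B : Set Y) (S : Y → Y → Prop) : Prop :=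
  ∃ f : X → Y, Measurable f ∧ (∀ x ∈ A, f x ∈ B) ∧
    ∀ x ∈ A, ∀ x' ∈ A, (R x x' ↔ S (f x) (f x'))

/-- Let `U` be a Polish space which contains a closed copy of every Polish space. Then
homeomorphism of `n`-manifolds is Borel reducible to homeomorphism of `m`-manifolds for every `n` and
every `m ≥ 2` (in particular for `n = 2` and `m = 3`), where manifolds are coded by elements of
the Effros Borel space of closed subsets of `U`. (Such a `U` exists: the space of real sequences is one.) -/
theorem result :
    (∀ (U : Type) [TopologicalSpace U] [PolishSpace U], Universal U → ∀ n m : ℕ, 2 ≤ m →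
      BorelReducibleOn (Mfd U n) Homeomorphic (Mfd U m) Homeomorphic) ∧
    Universal (ℕ → ℝ) := by
  refine ⟨?_, universal_seq⟩
  intro U _ _ hU n m hm
  obtain ⟨f, hf, hf1, hf2⟩ := FU_reduction U hU (EuclideanSpace ℝ (Fin n))
    (E := EuclideanSpace ℝ (Fin m))
      { e0 := EuclideanSpace.single ⟨0, by omega⟩ 1
        e1 := EuclideanSpace.single ⟨1, by omega⟩ 1
        h0 := by simp
        h1 := by simp
        h01 := by simp [EuclideanSpace.inner_single_left] }
  exact ⟨f, hf, fun F _ => hf1 F, fun F hF F' hF' => hf2 F F' hF hF'⟩

end Pool.Agent.Results.MP_3b9597_lc.DimReduction
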